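import Pool.Agent.Q72.AL.Stm4
import Pool.Agent.Q53.AL.Lat

/-! # Job AL-EPT: the effect of the lattice in mean square -/

set_option autoImplicit false

open Complex MeasureTheory Filter Topology Set

noncomputable section

namespace Pool.Agent.Q210.AL

open Pool.Agent.Q72.AL
open Pool.Agent.Q53.AL (term norm_term)
open H345 (Zo aa XX)

theorem ZZ_eq (Z : Finset ℝ) (κ v T : ℝ) : ZZ Z κ v T = ∑ t ∈ Z, term κ v T t := rfl

theorem ZZ_cont (Z : Finset ℝ) (κ w T : ℝ) : Continuous fun x : ℝ => ZZ Z κ (w + x) T := by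
  unfold ZZ
  refine continuous_finsetSum _ fun t _ => ?_
  refine continuous_const.mul ?_
  refine Complex.continuous_exp.comp ?_
  refine (Complex.continuous_ofReal.comp ?_).mul continuous_const
  fun_prop

theorem ZZ_bd (Z : Finset ℝ) (κ v T : ℝ) :
    ‖ZZ Z κ v T‖ ≤ ∑ t ∈ Z, ‖aa t‖ * Real.exp (-(κ * (t - T) ^ 2)) := by
  rw [ZZ_eq]
  refine (norm_sum_le _ _).trans (le_of_eq ?_)
  exact Finset.sum_congr rfl fun t _ => norm_term κ v T t

theorem inv_cont : Continuous fun x : ℝ => (1 + x ^ 2)⁻¹ := by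
  refine Continuous.inv₀ (by fun_prop) fun x => ?_
  have := sq_nonneg x
  linarith

theorem QQ_int (Z : Finset ℝ) (w T : ℝ) :
    Integrable (fun x : ℝ => (1 + x ^ 2)⁻¹ * ‖ZZ Z 2 (w + x) T‖ ^ 2) := by
  set B := ∑ t ∈ Z, ‖aa t‖ * Real.exp (-(2 * (t - T) ^ 2)) with hB
  refine Integrable.mono' (integrable_inv_one_add_sq.mul_const (B ^ 2))
    ((inv_cont.mul ((ZZ_cont Z 2 w T).norm.pow 2)).aestronglyMeasurable) ?_
  refine Eventually.of_forall fun x => ?_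
  have h0 : 0 < 1 + x ^ 2 := by have := sq_nonneg x; linarith
  rw [Real.norm_eq_abs, abs_of_nonneg (by positivity)]
  refine mul_le_mul_of_nonneg_left ?_ (inv_pos.2 h0).le
  exact pow_le_pow_left₀ (norm_nonneg _) (ZZ_bd Z 2 (w + x) T) 2

theorem shift (Z : Finset ℝ) (w T s : ℝ) :
    ∫ x : ℝ, (1 + x ^ 2)⁻¹ * ‖ZZ Z 2 (w + (x - s)) T‖ ^ 2 ≤
      (2 + 2 * s ^ 2) * ∫ x : ℝ, (1 + x ^ 2)⁻¹ * ‖ZZ Z 2 (w + x) T‖ ^ 2 := by
  have h1 : ∫ x : ℝ, (1 + x ^ 2)⁻¹ * ‖ZZ Z 2 (w + (x - s)) T‖ ^ 2 =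
      ∫ y : ℝ, (1 + (y + s) ^ 2)⁻¹ * ‖ZZ Z 2 (w + y) T‖ ^ 2 := by
    rw [← integral_sub_right_eq_self (fun y : ℝ => (1 + (y + s) ^ 2)⁻¹ * ‖ZZ Z 2 (w + y) T‖ ^ 2) s]
    refine integral_congr_ae (Eventually.of_forall fun x => ?_)
    show _ = (1 + ((x - s) + s) ^ 2)⁻¹ * ‖ZZ Z 2 (w + (x - s)) T‖ ^ 2
    rw [sub_add_cancel]
  rw [h1, ← integral_const_mul]
  refine integral_mono_of_nonneg (Eventually.of_forall fun y => ?_) ((QQ_int Z w T).const_mul _)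
    (Eventually.of_forall fun y => ?_)
  · have h0 : 0 < 1 + (y + s) ^ 2 := by have := sq_nonneg (y + s); linarith
    show 0 ≤ (1 + (y + s) ^ 2)⁻¹ * ‖ZZ Z 2 (w + y) T‖ ^ 2
    positivity
  · show (1 + (y + s) ^ 2)⁻¹ * ‖ZZ Z 2 (w + y) T‖ ^ 2 ≤
      (2 + 2 * s ^ 2) * ((1 + y ^ 2)⁻¹ * ‖ZZ Z 2 (w + y) T‖ ^ 2)
    rw [← mul_assoc]
    refine mul_le_mul_of_nonneg_right ?_ (sq_nonneg _)
    have h0 : 0 < 1 + (y + s) ^ 2 := by have := sq_nonneg (y + s); linarith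
    have h2 : 0 < 1 + y ^ 2 := by have := sq_nonneg y; linarith
    rw [← div_eq_mul_inv, le_div_iff₀ h2, inv_mul_le_iff₀ h0]
    nlinarith [sq_nonneg (y + s + s), sq_nonneg (y + s), sq_nonneg s, mul_nonneg (sq_nonneg s) (sq_nonneg (y + s))]

/-- the final numerical estimate -/
theorem small (C1 K L X : ℝ) (hX : X = Real.exp L) (hL : 10 ≤ L) (hC : C1 ≤ L) (hK0 : 0 ≤ K) (hK : K + 8 ≤ L) :
    K * (2 * L ^ 2 + 5) * (((L * (20 * X - X / 12) + 1) * Real.exp (C1 * L ^ 2)) * Real.exp (-(2 / 5 * L ^ 4))) ^ 2 +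
      8 * (((L * (20 * X - X / 12) + 1) * Real.exp (C1 * L ^ 2)) * Real.exp (-(2 * L ^ 4))) ^ 2 ≤ 1 / X := by
  have hXp : 0 < X := by rw [hX]; exact Real.exp_pos _
  have hX1 : 1 ≤ X := by rw [hX]; exact Real.one_le_exp (by linarith)
  have hLX : L ≤ X := by
    rw [hX]
    linarith [Real.add_one_le_exp L]
  have h54 : (21 : ℝ) ≤ Real.exp 4 := by
    have h1 := Real.exp_one_gt_d9
    have h2 : Real.exp 4 = Real.exp 1 ^ 4 := by
      rw [← Real.exp_nat_mul]; norm_num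
    rw [h2]
    have h3 : (2.7 : ℝ) ^ 4 ≤ Real.exp 1 ^ 4 := pow_le_pow_left₀ (by norm_num) (by linarith) 4
    norm_num at h3 ⊢
    linarith
  have h6 : L * (20 * X - X / 12) + 1 ≤ Real.exp 4 * (Real.exp L * Real.exp L) := by
    rw [← hX]
    have h7 : 1 ≤ L * X := by nlinarith
    have h8 : L * (20 * X - X / 12) + 1 ≤ 21 * (X * X) := by nlinarith
    exact h8.trans (mul_le_mul_of_nonneg_right h54 (by positivity))
  have h60 : 0 ≤ L * (20 * X - X / 12) + 1 := by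
    have : 0 ≤ L * (20 * X - X / 12) := mul_nonneg (by linarith) (by linarith)
    linarith
  set E := Real.exp (4 + (L + L) + C1 * L ^ 2 + -(2 / 5 * L ^ 4)) with hE
  have hE0 : 0 < E := Real.exp_pos _
  have b1 : ((L * (20 * X - X / 12) + 1) * Real.exp (C1 * L ^ 2)) * Real.exp (-(2 / 5 * L ^ 4)) ≤ E := by
    rw [hE, Real.exp_add, Real.exp_add, Real.exp_add, Real.exp_add]
    gcongr
  have b2 : ((L * (20 * X - X / 12) + 1) * Real.exp (C1 * L ^ 2)) * Real.exp (-(2 * L ^ 4)) ≤ E := by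
    refine le_trans (mul_le_mul_of_nonneg_left (Real.exp_le_exp.2 ?_) (by positivity)) b1
    have : 0 ≤ L ^ 4 := by positivity
    linarith
  have b10 : 0 ≤ ((L * (20 * X - X / 12) + 1) * Real.exp (C1 * L ^ 2)) * Real.exp (-(2 / 5 * L ^ 4)) := by positivity
  have b20 : 0 ≤ ((L * (20 * X - X / 12) + 1) * Real.exp (C1 * L ^ 2)) * Real.exp (-(2 * L ^ 4)) := by positivity
  have c1 := pow_le_pow_left₀ b10 b1 2
  have c2 := pow_le_pow_left₀ b20 b2 2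
  have hq : 0 ≤ K * (2 * L ^ 2 + 5) := by positivity
  have hKe : K + 8 ≤ Real.exp L := by linarith [Real.add_one_le_exp L]
  have hLe : 2 * L ^ 2 + 5 ≤ Real.exp 4 * (Real.exp L * Real.exp L) := by
    rw [← hX]
    have h8 : 2 * L ^ 2 + 5 ≤ 21 * (X * X) := by nlinarith
    exact h8.trans (mul_le_mul_of_nonneg_right h54 (by positivity))
  have h21 : (1 : ℝ) ≤ 2 * L ^ 2 + 5 := by nlinarith [sq_nonneg L]
  calc _ ≤ K * (2 * L ^ 2 + 5) * E ^ 2 + 8 * E ^ 2 :=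
        add_le_add (mul_le_mul_of_nonneg_left c1 hq) (mul_le_mul_of_nonneg_left c2 (by norm_num))
    _ ≤ K * (2 * L ^ 2 + 5) * E ^ 2 + 8 * (2 * L ^ 2 + 5) * E ^ 2 := by
        have : 8 * E ^ 2 * 1 ≤ 8 * E ^ 2 * (2 * L ^ 2 + 5) := mul_le_mul_of_nonneg_left h21 (by positivity)
        linarith
    _ = (K + 8) * (2 * L ^ 2 + 5) * E ^ 2 := by ring
    _ ≤ Real.exp L * (Real.exp 4 * (Real.exp L * Real.exp L)) * E ^ 2 := by
        refine mul_le_mul_of_nonneg_right ?_ (sq_nonneg E)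
        exact mul_le_mul hKe hLe (by positivity) (Real.exp_pos _).le
    _ = Real.exp (L + (4 + (L + L)) + 2 * (4 + (L + L) + C1 * L ^ 2 + -(2 / 5 * L ^ 4))) := by
        rw [Real.exp_add, Real.exp_add L, Real.exp_add 4, Real.exp_add L L, hE, ← Real.exp_nat_mul]
        norm_num
    _ ≤ Real.exp (-L) := by
        apply Real.exp_le_exp.mpr
        have a1 : C1 * L ^ 2 ≤ L ^ 3 := by
          have : C1 * L ^ 2 ≤ L * L ^ 2 := mul_le_mul_of_nonneg_right hC (sq_nonneg L)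
          linarith [show L * L ^ 2 = L ^ 3 by ring]
        have a2 : 100 * L ≤ L ^ 3 := by nlinarith [mul_nonneg (by linarith : (0:ℝ) ≤ L) (mul_nonneg (by linarith : (0:ℝ) ≤ L - 10) (by linarith : (0:ℝ) ≤ L + 10))]
        have a3 : 10 * L ^ 3 ≤ L ^ 4 := by
          have : 0 ≤ L ^ 3 := by positivity
          nlinarith
        linarith
    _ = 1 / X := by
        rw [hX, Real.exp_neg, one_div]

theorem gauss_ineq (u : ℝ) (j : ℝ) : 2 / 5 * u ^ 2 ≤ j ^ 2 / 2 + 2 * (u - j) ^ 2 := by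
  nlinarith [sq_nonneg (5 * j - 4 * u)]

theorem ept (h1 : J_ABB) (h2 : J_CNT) (h3 : J_ELOC) : J_EPT := by
  intro RH a
  obtain ⟨C1, X1, hC1, hAB⟩ := h1 RH
  obtain ⟨_, hcard⟩ := h2
  obtain ⟨C3, hC3, hel⟩ := h3
  set sm := 2 * Real.log 2 + 2 * |a| with hsm
  have hlog2 : 0 < Real.log 2 := Real.log_pos (by norm_num)
  have hsm0 : 0 ≤ sm := by positivity
  set Ca := 2 + 2 * sm ^ 2 with hCa
  have hCa0 : 0 < Ca := by positivity
  set K := 4 * (C3 * Ca * Real.pi) with hK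
  have hK0 : 0 ≤ K := by positivity
  refine ⟨4 * (C3 * Ca), max X1 (Real.exp (max 10 (max C1 (K + 8)))), by positivity, ?_⟩
  intro X δ c hX hδ hδ1 hc hc1 hyp Z hZ T hT1 hT2
  have hX1 : X1 ≤ X := (le_max_left _ _).trans hX
  have hXe : Real.exp (max 10 (max C1 (K + 8))) ≤ X := (le_max_right _ _).trans hX
  have hXp : 0 < X := (Real.exp_pos _).trans_le hXe
  set L := Real.log X with hL
  have hLm : max 10 (max C1 (K + 8)) ≤ L := (Real.le_log_iff_exp_le hXp).mpr hXe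
  have hL10 : 10 ≤ L := (le_max_left _ _).trans hLm
  have hLC : C1 ≤ L := (le_max_left _ _).trans ((le_max_right _ _).trans hLm)
  have hLK : K + 8 ≤ L := (le_max_right _ _).trans ((le_max_right _ _).trans hLm)
  have hL0 : 0 < L := by linarith
  have hXL : X = Real.exp L := (Real.exp_log hXp).symm
  have hX16 : 0 < Real.log (X / 16) := by
    apply Real.log_pos
    rw [lt_div_iff₀ (by norm_num)]
    have h1 := Real.exp_one_gt_d9
    have h2 : Real.exp 3 = Real.exp 1 ^ 3 := by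
      rw [← Real.exp_nat_mul]; norm_num
    have h3 : (2.7 : ℝ) ^ 3 ≤ Real.exp 1 ^ 3 := pow_le_pow_left₀ (by norm_num) (by linarith) 3
    have h4 : Real.exp 3 ≤ X := by rw [hXL]; exact Real.exp_le_exp.2 (by linarith)
    rw [h2] at h4
    norm_num at h3
    linarith
  have hsp : ∀ t ∈ Z, ∀ t' ∈ Z, t < t' → 1 / L ≤ t' - t := by
    intro t ht t' ht' htt
    have h := hyp.spaced t (hZ t ht).1 t' (hZ t' ht').1 (by linarith [(hZ t ht).2.1]) htt
      (by linarith [(hZ t' ht').2.2])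
    refine le_trans ?_ h
    apply one_div_le_one_div_of_le hX16
    exact Real.log_le_log (by positivity) (by linarith)
  have haa : ∀ t ∈ Z, ‖aa t‖ ≤ Real.exp (C1 * L ^ 2) := fun t ht =>
    hAB X hX1 hyp.simple hyp.spaced t (hZ t ht).1 (hZ t ht).2.1 (hZ t ht).2.2
  set P : ℝ := 2 * (Real.log T + a) with hP
  set v1 : ℝ := Real.log (c * X) - P with hv1
  set w : ℝ := Real.log c - L with hw
  set N : ℕ := ⌈L ^ 2⌉₊ with hN
  set M : ℝ := (L * (20 * X - X / 12) + 1) * Real.exp (C1 * L ^ 2) with hM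
  have hM0 : 0 ≤ M := by
    have : 0 ≤ L * (20 * X - X / 12) := mul_nonneg (by linarith) (by linarith)
    positivity
  set Z' := Z.filter (fun t => |t - T| ≤ L ^ 2) with hZ'
  set Zc := Z.filter (fun t => ¬ |t - T| ≤ L ^ 2) with hZc
  have hsplit : ∀ v T' : ℝ, ZZ Z 2 v T' = ZZ Z' 2 v T' + ZZ Zc 2 v T' := by
    intro v T'
    rw [ZZ_eq, ZZ_eq, ZZ_eq, hZ', hZc, Finset.sum_filter_add_sum_filter_not]
  have hZcc : (Zc.card : ℝ) ≤ L * (20 * X - X / 12) + 1 := by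
    have h3 := hcard L (X / 12) (20 * X) Z hL0 (by linarith)
      (fun t ht => ⟨(hZ t ht).2.1, (hZ t ht).2.2⟩) hsp
    have h4 : (Zc.card : ℝ) ≤ Z.card := by exact_mod_cast Finset.card_filter_le _ _
    linarith
  have husq : ∀ t ∈ Zc, L ^ 4 ≤ (t - T) ^ 2 := by
    intro t ht
    have ht2 := (Finset.mem_filter.mp ht).2
    push Not at ht2
    rw [← sq_abs (t - T)]
    have : (L ^ 2) ^ 2 ≤ |t - T| ^ 2 := pow_le_pow_left₀ (sq_nonneg L) ht2.le 2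
    linarith [show (L ^ 2) ^ 2 = L ^ 4 by ring]
  -- the far part
  have hfar : ∀ v : ℝ, ‖ZZ Zc 2 v T‖ ≤ M * Real.exp (-(2 * L ^ 4)) := by
    intro v
    refine (ZZ_bd Zc 2 v T).trans ?_
    calc ∑ t ∈ Zc, ‖aa t‖ * Real.exp (-(2 * (t - T) ^ 2)) ≤
          ∑ t ∈ Zc, Real.exp (C1 * L ^ 2) * Real.exp (-(2 * L ^ 4)) := by
          refine Finset.sum_le_sum fun t ht => ?_
          refine mul_le_mul (haa t (Finset.mem_filter.mp ht).1) ?_ (Real.exp_pos _).le (Real.exp_pos _).le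
          apply Real.exp_le_exp.mpr
          linarith [husq t ht]
      _ = (Zc.card : ℝ) * (Real.exp (C1 * L ^ 2) * Real.exp (-(2 * L ^ 4))) := by
          rw [Finset.sum_const, nsmul_eq_mul]
      _ ≤ (L * (20 * X - X / 12) + 1) * (Real.exp (C1 * L ^ 2) * Real.exp (-(2 * L ^ 4))) :=
          mul_le_mul_of_nonneg_right hZcc (by positivity)
      _ = _ := by rw [hM]; ring
  have hfarj : ∀ (v j : ℝ), Real.exp (-(j ^ 2)) * ‖ZZ Zc 2 v (T + j)‖ ^ 2 ≤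
      (M * Real.exp (-(2 / 5 * L ^ 4))) ^ 2 := by
    intro v j
    have e1 : Real.exp (-(j ^ 2)) * ‖ZZ Zc 2 v (T + j)‖ ^ 2 =
        (Real.exp (-(j ^ 2 / 2)) * ‖ZZ Zc 2 v (T + j)‖) ^ 2 := by
      rw [mul_pow, ← Real.exp_nat_mul]
      congr 2
      push_cast
      ring
    rw [e1]
    refine pow_le_pow_left₀ (by positivity) ?_ 2
    calc Real.exp (-(j ^ 2 / 2)) * ‖ZZ Zc 2 v (T + j)‖ ≤
          Real.exp (-(j ^ 2 / 2)) * ∑ t ∈ Zc, ‖aa t‖ * Real.exp (-(2 * (t - (T + j)) ^ 2)) :=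
          mul_le_mul_of_nonneg_left (ZZ_bd Zc 2 v (T + j)) (Real.exp_pos _).le
      _ = ∑ t ∈ Zc, ‖aa t‖ * (Real.exp (-(j ^ 2 / 2)) * Real.exp (-(2 * (t - (T + j)) ^ 2))) := by
          rw [Finset.mul_sum]
          exact Finset.sum_congr rfl fun t _ => by ring
      _ ≤ ∑ t ∈ Zc, Real.exp (C1 * L ^ 2) * Real.exp (-(2 / 5 * L ^ 4)) := by
          refine Finset.sum_le_sum fun t ht => ?_
          refine mul_le_mul (haa t (Finset.mem_filter.mp ht).1) ?_ (by positivity) (Real.exp_pos _).le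
          rw [← Real.exp_add]
          apply Real.exp_le_exp.mpr
          have h5 := gauss_ineq (t - T) j
          have h6 := husq t ht
          have h7 : (t - (T + j)) ^ 2 = ((t - T) - j) ^ 2 := by ring
          rw [h7]
          linarith
      _ = (Zc.card : ℝ) * (Real.exp (C1 * L ^ 2) * Real.exp (-(2 / 5 * L ^ 4))) := by
          rw [Finset.sum_const, nsmul_eq_mul]
      _ ≤ (L * (20 * X - X / 12) + 1) * (Real.exp (C1 * L ^ 2) * Real.exp (-(2 / 5 * L ^ 4))) :=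
          mul_le_mul_of_nonneg_right hZcc (by positivity)
      _ = _ := by rw [hM]; ring
  set S := ∑ j ∈ Finset.Icc (-(N : ℤ)) N, Real.exp (-((j : ℝ) ^ 2)) * QQ Z w (T + j) with hS
  -- the near part
  have hnear : |‖ZZ Z' 2 (v1 + P) T‖ - ‖ZZ Z' 2 v1 T‖| ^ 2 ≤
      C3 * δ ^ 2 * ∑ j ∈ Finset.Icc (-(N : ℤ)) N, Real.exp (-((j : ℝ) ^ 2)) *
        ∫ x : ℝ, (1 + x ^ 2)⁻¹ * ‖ZZ Z' 2 (v1 + x) (T + j)‖ ^ 2 := by
    rcases Z'.eq_empty_or_nonempty with he | hne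
    · have : ∀ v : ℝ, ZZ Z' 2 v T = 0 := by
        intro v
        rw [he]
        rfl
      rw [this, this, sub_self, abs_zero]
      have h0 : ∀ j ∈ Finset.Icc (-(N : ℤ)) N, 0 ≤ Real.exp (-((j : ℝ) ^ 2)) *
          ∫ x : ℝ, (1 + x ^ 2)⁻¹ * ‖ZZ Z' 2 (v1 + x) (T + j)‖ ^ 2 := by
        intro j _
        refine mul_nonneg (Real.exp_pos _).le (integral_nonneg fun x => ?_)
        have : 0 < 1 + x ^ 2 := by have := sq_nonneg x; linarith
        show 0 ≤ (1 + x ^ 2)⁻¹ * ‖ZZ Z' 2 (v1 + x) (T + j)‖ ^ 2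
        positivity
      have := Finset.sum_nonneg h0
      have h8 : (0 : ℝ) ^ 2 = 0 := by norm_num
      rw [h8]
      positivity
    · obtain ⟨t0, ht0, hmin⟩ := Finset.exists_min_image Z' (fun t => |t - T|) hne
      obtain ⟨ht01, ht02⟩ := Finset.mem_filter.mp ht0
      let θ : ℝ → ℂ := fun t => cexp (((P * (t - t0) : ℝ) : ℂ) * I) - 1
      have hterm : ∀ t : ℝ, term 2 (v1 + P) T t =
          cexp (((P * (t0 - T) : ℝ) : ℂ) * I) *
            (term 2 v1 T t * cexp (((P * (t - t0) : ℝ) : ℂ) * I)) := by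
        intro t
        unfold Pool.Agent.Q53.AL.term
        have : cexp ((((t - T) * (v1 + P) : ℝ) : ℂ) * I) =
            cexp (((P * (t0 - T) : ℝ) : ℂ) * I) * (cexp ((((t - T) * v1 : ℝ) : ℂ) * I) *
              cexp (((P * (t - t0) : ℝ) : ℂ) * I)) := by
          rw [← Complex.exp_add, ← Complex.exp_add]
          congr 1
          push_cast
          ring
        rw [this]
        ring
      have e1 : ‖ZZ Z' 2 (v1 + P) T‖ =
          ‖∑ t ∈ Z', term 2 v1 T t * cexp (((P * (t - t0) : ℝ) : ℂ) * I)‖ := by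
        rw [ZZ_eq, Finset.sum_congr rfl (fun t _ => hterm t), ← Finset.mul_sum, norm_mul,
          Complex.norm_exp_ofReal_mul_I, one_mul]
      have e2 : |‖ZZ Z' 2 (v1 + P) T‖ - ‖ZZ Z' 2 v1 T‖| ≤ ‖∑ t ∈ Z', term 2 v1 T t * θ t‖ := by
        rw [e1, ZZ_eq]
        refine (abs_norm_sub_norm_le _ _).trans (le_of_eq ?_)
        rw [← Finset.sum_sub_distrib]
        congr 1
        exact Finset.sum_congr rfl fun t _ => by show _ = term 2 v1 T t * (_ - 1); ring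
      have hθ1 : ∀ s ∈ Z', ∀ t ∈ Z', ‖θ s - θ t‖ ≤ δ * |s - t| := by
        intro s hs t ht
        obtain ⟨hs1, hs2⟩ := Finset.mem_filter.mp hs
        obtain ⟨ht1, ht2⟩ := Finset.mem_filter.mp ht
        have f1 : θ s - θ t = cexp (((P * (t - t0) : ℝ) : ℂ) * I) *
            (cexp (((P * (s - t) : ℝ) : ℂ) * I) - 1) := by
          show (cexp (((P * (s - t0) : ℝ) : ℂ) * I) - 1) - (cexp (((P * (t - t0) : ℝ) : ℂ) * I) - 1) = _
          have : cexp (((P * (s - t0) : ℝ) : ℂ) * I) = cexp (((P * (t - t0) : ℝ) : ℂ) * I) *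
              cexp (((P * (s - t) : ℝ) : ℂ) * I) := by
            rw [← Complex.exp_add]
            congr 1
            push_cast
            ring
          rw [this]
          ring
        rw [f1, norm_mul, Complex.norm_exp_ofReal_mul_I, one_mul]
        exact hyp.latt T (by linarith) (by linarith) s (hZ s hs1).1 t (hZ t ht1).1 hs2 ht2
      have hθ2 : ∀ t ∈ Z', ‖θ t‖ ≤ 2 * δ * |t - T| := by
        intro t ht
        obtain ⟨ht1, ht2⟩ := Finset.mem_filter.mp ht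
        have f2 := hyp.latt T (by linarith) (by linarith) t (hZ t ht1).1 t0 (hZ t0 ht01).1 ht2 ht02
        have f3 : |t - t0| ≤ 2 * |t - T| := by
          have g1 := hmin t ht
          have g2 := abs_sub_le t T t0
          rw [abs_sub_comm T t0] at g2
          linarith
        calc ‖θ t‖ ≤ δ * |t - t0| := f2
          _ ≤ δ * (2 * |t - T|) := mul_le_mul_of_nonneg_left f3 hδ.le
          _ = _ := by ring
      have e3 := hel Z' aa θ δ (L ^ 2) T v1 N hδ.le (Nat.le_ceil _)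
        (fun t ht => (Finset.mem_filter.mp ht).2) hθ1 hθ2
      refine (pow_le_pow_left₀ (abs_nonneg _) e2 2).trans ?_
      exact e3
  -- comparison of the integrals
  have hcmp : ∀ j : ℝ, Real.exp (-(j ^ 2)) * ∫ x : ℝ, (1 + x ^ 2)⁻¹ * ‖ZZ Z' 2 (v1 + x) (T + j)‖ ^ 2 ≤
      Ca * (2 * (Real.exp (-(j ^ 2)) * QQ Z w (T + j)) + 2 * Real.pi * (M * Real.exp (-(2 / 5 * L ^ 4))) ^ 2) := by
    intro j
    set s : ℝ := P - 2 * L with hs
    have hsw : ∀ x : ℝ, v1 + x = w + (x - s) := by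
      intro x
      rw [hv1, hw, hs, Real.log_mul hc.ne' hXp.ne']
      ring
    have hTp : 0 < T := hXp.trans_le hT1
    have hs2 : s ^ 2 ≤ sm ^ 2 := by
      have g1 : L ≤ Real.log T := Real.log_le_log hXp hT1
      have g2 : Real.log T ≤ Real.log 2 + L := by
        rw [hL, ← Real.log_mul (by norm_num) hXp.ne']
        exact Real.log_le_log hTp hT2
      have g3 : |s| ≤ sm := by
        have g4 := abs_le.1 (le_refl |a|)
        rw [abs_le, hs, hP, hsm]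
        constructor <;> linarith [g4.1, g4.2]
      calc s ^ 2 = |s| ^ 2 := (sq_abs s).symm
        _ ≤ sm ^ 2 := pow_le_pow_left₀ (abs_nonneg _) g3 2
    have i1 : ∫ x : ℝ, (1 + x ^ 2)⁻¹ * ‖ZZ Z' 2 (v1 + x) (T + j)‖ ^ 2 ≤
        Ca * ∫ x : ℝ, (1 + x ^ 2)⁻¹ * ‖ZZ Z' 2 (w + x) (T + j)‖ ^ 2 := by
      have : ∫ x : ℝ, (1 + x ^ 2)⁻¹ * ‖ZZ Z' 2 (v1 + x) (T + j)‖ ^ 2 =
          ∫ x : ℝ, (1 + x ^ 2)⁻¹ * ‖ZZ Z' 2 (w + (x - s)) (T + j)‖ ^ 2 := by
        refine integral_congr_ae (Eventually.of_forall fun x => ?_)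
        show (1 + x ^ 2)⁻¹ * ‖ZZ Z' 2 (v1 + x) (T + j)‖ ^ 2 = _
        rw [hsw]
      rw [this]
      refine (shift Z' w (T + j) s).trans ?_
      refine mul_le_mul_of_nonneg_right (by rw [hCa]; linarith) (integral_nonneg fun x => ?_)
      have : 0 < 1 + x ^ 2 := by have := sq_nonneg x; linarith
      show 0 ≤ (1 + x ^ 2)⁻¹ * ‖ZZ Z' 2 (w + x) (T + j)‖ ^ 2
      positivity
    have i2 : Real.exp (-(j ^ 2)) * ∫ x : ℝ, (1 + x ^ 2)⁻¹ * ‖ZZ Z' 2 (w + x) (T + j)‖ ^ 2 ≤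
        2 * (Real.exp (-(j ^ 2)) * QQ Z w (T + j)) +
          2 * Real.pi * (M * Real.exp (-(2 / 5 * L ^ 4))) ^ 2 := by
      have i3 : 2 * (Real.exp (-(j ^ 2)) * QQ Z w (T + j)) + 2 * Real.pi * (M * Real.exp (-(2 / 5 * L ^ 4))) ^ 2 =
          ∫ x : ℝ, (2 * Real.exp (-(j ^ 2))) * ((1 + x ^ 2)⁻¹ * ‖ZZ Z 2 (w + x) (T + j)‖ ^ 2) +
            (1 + x ^ 2)⁻¹ * (2 * (M * Real.exp (-(2 / 5 * L ^ 4))) ^ 2) := by
        rw [integral_add ((QQ_int Z w (T + j)).const_mul _) (integrable_inv_one_add_sq.mul_const _),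
          integral_const_mul, integral_mul_const, integral_univ_inv_one_add_sq]
        unfold QQ
        ring
      rw [i3, ← integral_const_mul]
      refine integral_mono_of_nonneg (Eventually.of_forall fun x => ?_)
        (((QQ_int Z w (T + j)).const_mul _).add (integrable_inv_one_add_sq.mul_const _))
        (Eventually.of_forall fun x => ?_)
      · have : 0 < 1 + x ^ 2 := by have := sq_nonneg x; linarith
        show 0 ≤ Real.exp (-(j ^ 2)) * ((1 + x ^ 2)⁻¹ * ‖ZZ Z' 2 (w + x) (T + j)‖ ^ 2)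
        positivity
      · show Real.exp (-(j ^ 2)) * ((1 + x ^ 2)⁻¹ * ‖ZZ Z' 2 (w + x) (T + j)‖ ^ 2) ≤
          (2 * Real.exp (-(j ^ 2))) * ((1 + x ^ 2)⁻¹ * ‖ZZ Z 2 (w + x) (T + j)‖ ^ 2) +
            (1 + x ^ 2)⁻¹ * (2 * (M * Real.exp (-(2 / 5 * L ^ 4))) ^ 2)
        have hp : 0 < (1 + x ^ 2)⁻¹ := inv_pos.2 (by have := sq_nonneg x; linarith)
        have k1 : ‖ZZ Z' 2 (w + x) (T + j)‖ ^ 2 ≤ 2 * ‖ZZ Z 2 (w + x) (T + j)‖ ^ 2 +
            2 * ‖ZZ Zc 2 (w + x) (T + j)‖ ^ 2 := by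
          have k2 : ZZ Z' 2 (w + x) (T + j) = ZZ Z 2 (w + x) (T + j) - ZZ Zc 2 (w + x) (T + j) := by
            rw [hsplit]; ring
          have k3 : ‖ZZ Z' 2 (w + x) (T + j)‖ ≤ ‖ZZ Z 2 (w + x) (T + j)‖ + ‖ZZ Zc 2 (w + x) (T + j)‖ := by
            rw [k2]; exact norm_sub_le _ _
          have k4 := pow_le_pow_left₀ (norm_nonneg _) k3 2
          nlinarith [sq_nonneg (‖ZZ Z 2 (w + x) (T + j)‖ - ‖ZZ Zc 2 (w + x) (T + j)‖)]
        have k5 := hfarj (w + x) j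
        calc Real.exp (-(j ^ 2)) * ((1 + x ^ 2)⁻¹ * ‖ZZ Z' 2 (w + x) (T + j)‖ ^ 2) ≤
              Real.exp (-(j ^ 2)) * ((1 + x ^ 2)⁻¹ * (2 * ‖ZZ Z 2 (w + x) (T + j)‖ ^ 2 +
            2 * ‖ZZ Zc 2 (w + x) (T + j)‖ ^ 2)) := by gcongr
          _ = (2 * Real.exp (-(j ^ 2))) * ((1 + x ^ 2)⁻¹ * ‖ZZ Z 2 (w + x) (T + j)‖ ^ 2) +
            (1 + x ^ 2)⁻¹ * (2 * (Real.exp (-(j ^ 2)) * ‖ZZ Zc 2 (w + x) (T + j)‖ ^ 2)) := by ring
          _ ≤ _ := by gcongr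
    calc Real.exp (-(j ^ 2)) * ∫ x : ℝ, (1 + x ^ 2)⁻¹ * ‖ZZ Z' 2 (v1 + x) (T + j)‖ ^ 2 ≤
          Real.exp (-(j ^ 2)) * (Ca * ∫ x : ℝ, (1 + x ^ 2)⁻¹ * ‖ZZ Z' 2 (w + x) (T + j)‖ ^ 2) :=
          mul_le_mul_of_nonneg_left i1 (Real.exp_pos _).le
      _ = Ca * (Real.exp (-(j ^ 2)) * ∫ x : ℝ, (1 + x ^ 2)⁻¹ * ‖ZZ Z' 2 (w + x) (T + j)‖ ^ 2) := by ring
      _ ≤ _ := mul_le_mul_of_nonneg_left i2 hCa0.le
  have hsum : ∑ j ∈ Finset.Icc (-(N : ℤ)) N, Real.exp (-((j : ℝ) ^ 2)) *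
        ∫ x : ℝ, (1 + x ^ 2)⁻¹ * ‖ZZ Z' 2 (v1 + x) (T + j)‖ ^ 2 ≤
      Ca * (2 * S) + (2 * L ^ 2 + 5) * (Ca * (2 * Real.pi * (M * Real.exp (-(2 / 5 * L ^ 4))) ^ 2)) := by
    calc _ ≤ ∑ j ∈ Finset.Icc (-(N : ℤ)) N, Ca * (2 * (Real.exp (-((j : ℝ) ^ 2)) * QQ Z w (T + j)) +
          2 * Real.pi * (M * Real.exp (-(2 / 5 * L ^ 4))) ^ 2) :=
          Finset.sum_le_sum fun j _ => hcmp (j : ℝ)
      _ = Ca * (2 * S) + ((Finset.Icc (-(N : ℤ)) N).card : ℝ) *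
          (Ca * (2 * Real.pi * (M * Real.exp (-(2 / 5 * L ^ 4))) ^ 2)) := by
          rw [hS, ← Finset.mul_sum, Finset.sum_add_distrib, ← Finset.mul_sum, Finset.sum_const,
            nsmul_eq_mul]
          ring
      _ ≤ _ := by
          refine add_le_add le_rfl (mul_le_mul_of_nonneg_right ?_ (by positivity))
          have hc1 : ((Finset.Icc (-(N : ℤ)) N).card : ℝ) = 2 * N + 1 := by
            rw [Int.card_Icc]
            have : ((N : ℤ) + 1 - -(N : ℤ)).toNat = 2 * N + 1 := by omega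
            rw [this]
            push_cast
            ring
          rw [hc1]
          have hc2 : (N : ℝ) < L ^ 2 + 1 := Nat.ceil_lt_add_one (by positivity)
          linarith
  have hvv : Real.log (c * X) = v1 + P := by rw [hv1]; ring
  rw [hvv]
  have hA := hfar (v1 + P)
  have hB := hfar v1
  have hS0 : 0 ≤ S := by
    refine Finset.sum_nonneg fun j _ => mul_nonneg (Real.exp_pos _).le (integral_nonneg fun x => ?_)
    have : 0 < 1 + x ^ 2 := by have := sq_nonneg x; linarith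
    show 0 ≤ (1 + x ^ 2)⁻¹ * ‖ZZ Z 2 (w + x) (T + j)‖ ^ 2
    positivity
  set ε := M * Real.exp (-(2 * L ^ 4)) with hε
  have hε0 : 0 ≤ ε := by positivity
  have hD : |‖ZZ Z 2 (v1 + P) T‖ - ‖ZZ Z 2 v1 T‖| ≤
      |‖ZZ Z' 2 (v1 + P) T‖ - ‖ZZ Z' 2 v1 T‖| + 2 * ε := by
    rw [hsplit (v1 + P) T, hsplit v1 T]
    set A1 := ZZ Z' 2 (v1 + P) T
    set A2 := ZZ Zc 2 (v1 + P) T
    set B1 := ZZ Z' 2 v1 T
    set B2 := ZZ Zc 2 v1 T
    have k1 : |‖A1 + A2‖ - ‖A1‖| ≤ ‖A2‖ := by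
      refine (abs_norm_sub_norm_le _ _).trans (le_of_eq ?_)
      congr 1
      ring
    have k2 : |‖B1 + B2‖ - ‖B1‖| ≤ ‖B2‖ := by
      refine (abs_norm_sub_norm_le _ _).trans (le_of_eq ?_)
      congr 1
      ring
    have k3 := abs_le.1 (le_refl |‖A1‖ - ‖B1‖|)
    rw [abs_le] at k1 k2 ⊢
    constructor <;> linarith [k1.1, k1.2, k2.1, k2.2, k3.1, k3.2]
  have hD2 := pow_le_pow_left₀ (abs_nonneg _) hD 2
  have hfin := small C1 K L X hXL hL10 hLC hK0 hLK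
  rw [← hM] at hfin
  set E := |‖ZZ Z' 2 (v1 + P) T‖ - ‖ZZ Z' 2 v1 T‖| with hE
  set G := (M * Real.exp (-(2 / 5 * L ^ 4))) ^ 2 with hG
  have hG0 : 0 ≤ G := sq_nonneg _
  have hE2 : E ^ 2 ≤ C3 * δ ^ 2 * (Ca * (2 * S) + (2 * L ^ 2 + 5) * (Ca * (2 * Real.pi * G))) :=
    hnear.trans (mul_le_mul_of_nonneg_left hsum (by positivity))
  have hδ2 : δ ^ 2 ≤ 1 := pow_le_one₀ hδ.le hδ1
  have hlast : C3 * δ ^ 2 * ((2 * L ^ 2 + 5) * (Ca * (2 * Real.pi * G))) ≤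
      C3 * 1 * ((2 * L ^ 2 + 5) * (Ca * (2 * Real.pi * G))) := by
    gcongr
  have hEE : (E + 2 * ε) ^ 2 ≤ 2 * E ^ 2 + 8 * ε ^ 2 := by
    have h9 : 2 * E ^ 2 + 8 * ε ^ 2 = (E + 2 * ε) ^ 2 + (E - 2 * ε) ^ 2 := by ring
    rw [h9]
    exact le_add_of_nonneg_right (sq_nonneg _)
  calc _ ≤ (E + 2 * ε) ^ 2 := hD2
    _ ≤ 2 * E ^ 2 + 8 * ε ^ 2 := hEE
    _ ≤ 2 * (C3 * δ ^ 2 * (Ca * (2 * S) + (2 * L ^ 2 + 5) * (Ca * (2 * Real.pi * G)))) + 8 * ε ^ 2 :=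
        add_le_add (mul_le_mul_of_nonneg_left hE2 (by norm_num)) le_rfl
    _ = 4 * (C3 * Ca) * δ ^ 2 * S + 2 * (C3 * δ ^ 2 * ((2 * L ^ 2 + 5) * (Ca * (2 * Real.pi * G)))) +
        8 * ε ^ 2 := by ring
    _ ≤ 4 * (C3 * Ca) * δ ^ 2 * S + 2 * (C3 * 1 * ((2 * L ^ 2 + 5) * (Ca * (2 * Real.pi * G)))) +
        8 * ε ^ 2 :=
        add_le_add (add_le_add le_rfl (mul_le_mul_of_nonneg_left hlast (by norm_num))) le_rfl
    _ = 4 * (C3 * Ca) * δ ^ 2 * S + (K * (2 * L ^ 2 + 5) * G + 8 * ε ^ 2) := by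
        rw [hK]; ring
    _ ≤ _ := add_le_add le_rfl hfin

end Pool.Agent.Q210.AL
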